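import Pool.Agent.helper23.DM.FL
import Pool.Agent.helper44.DM.ZG

/-!
DM project (MP_4467b5_nt), module FM: the fourth moment of the zeta function.
-/

set_option autoImplicit false

open Complex Metric MeasureTheory

namespace Pool.Agent.helper84.DM

theorem FM_cont {σ A B : ℝ} (hA : 0 < A) :
    ContinuousOn (fun t : ℝ => riemannZeta ((σ : ℂ) + t * I)) (Set.Icc A B) := by
  intro t ht
  apply ContinuousAt.continuousWithinAt
  have h1 : ContinuousAt riemannZeta ((σ : ℂ) + t * I) := by
    apply (differentiableAt_riemannZeta _).continuousAt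
    intro h
    have := congrArg Complex.im h
    simp at this
    linarith [ht.1]
  exact ContinuousAt.comp (f := fun t : ℝ => (σ : ℂ) + t * I) h1
    (by fun_prop : Continuous fun t : ℝ => (σ : ℂ) + t * I).continuousAt

theorem FM_cont' {τ : ℂ} (hτ : τ.re ≠ 1) :
    Continuous (fun t : ℝ => riemannZeta (τ + (t : ℂ) * I)) := by
  rw [continuous_iff_continuousAt]
  intro t
  have h1 : ContinuousAt riemannZeta (τ + t * I) := by
    apply (differentiableAt_riemannZeta _).continuousAt
    intro h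
    have := congrArg Complex.re h
    simp at this
    exact hτ this
  exact ContinuousAt.comp (f := fun t : ℝ => τ + t * I) h1
    (by fun_prop : Continuous fun t : ℝ => τ + t * I).continuousAt

theorem FM_const {g : ℝ → ℝ} {A B K : ℝ} (hAB : A ≤ B) (hg : ContinuousOn g (Set.Icc A B))
    (h : ∀ t ∈ Set.Icc A B, g t ≤ K) : ∫ t in A..B, g t ≤ K * (B - A) := by
  have h1 : ∫ t in A..B, g t ≤ ∫ _t in A..B, K := by
    apply intervalIntegral.integral_mono_on hAB _ intervalIntegrable_const h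
    apply ContinuousOn.intervalIntegrable
    rwa [Set.uIcc_of_le hAB]
  rw [intervalIntegral.integral_const, smul_eq_mul] at h1
  linarith

theorem fourth_moment (η ε : ℝ) (hη : 0 < η) (hη1 : η ≤ 1 / 4) (hε : 0 < ε) :
    ∃ C : ℝ, 0 < C ∧ ∀ T σ : ℝ, 2 ≤ T → 1 / 2 + η ≤ σ →
      ∫ t in T..(2 * T), ‖riemannZeta ((σ : ℂ) + t * I)‖ ^ 4 ≤ C * T ^ (1 + ε) := by
  obtain ⟨C₁, hC₁, hfr⟩ := fr η ε hη hη1 hε
  obtain ⟨C₂, hC₂, hfl⟩ := fl η ε hη hη1 hε
  obtain ⟨C₃, hC₃, hright⟩ := zeta_right
  obtain ⟨C₄, hC₄, hpoly⟩ := zeta_poly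
  set M : ℝ := 729 * C₄ ^ 2 * 256 * Real.exp 4 * 24 with hM
  have hM0 : 0 < M := by positivity
  refine ⟨3 * (C₁ + C₂ + M ^ 2) + (C₄ * 40 ^ 3) ^ 4 + Real.exp C₃ ^ 4, by positivity, ?_⟩
  intro T σ hT hσ
  have hT0 : 0 < T := by linarith
  have hT1 : 1 ≤ T := by linarith
  have hTT : 2 * T - T ≤ T ^ (1 + ε) := by
    calc 2 * T - T = T ^ (1 : ℝ) := by rw [Real.rpow_one]; ring
      _ ≤ T ^ (1 + ε) := Real.rpow_le_rpow_of_exponent_le hT1 (by linarith)
  have hcont : ContinuousOn (fun t : ℝ => ‖riemannZeta ((σ : ℂ) + t * I)‖ ^ 4)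
      (Set.Icc T (2 * T)) := (FM_cont hT0).norm.pow 4
  have hTp : 0 < T ^ (1 + ε) := by positivity
  rcases lt_or_ge (3 / 2) σ with hs | hs
  · have h1 := FM_const (K := Real.exp C₃ ^ 4) (by linarith) hcont (by
      intro t _
      exact pow_le_pow_left₀ (norm_nonneg _) (hright _ (by simpa using hs.le)).2 4)
    refine h1.trans ?_
    calc Real.exp C₃ ^ 4 * (2 * T - T) ≤ Real.exp C₃ ^ 4 * T ^ (1 + ε) :=
          mul_le_mul_of_nonneg_left hTT (by positivity)
      _ ≤ _ := by
          apply mul_le_mul_of_nonneg_right _ hTp.le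
          have : 0 ≤ 3 * (C₁ + C₂ + M ^ 2) + (C₄ * 40 ^ 3) ^ 4 := by positivity
          linarith
  rcases lt_or_ge T 20 with hT20 | hT20
  · have h1 := FM_const (K := (C₄ * 40 ^ 3) ^ 4) (by linarith) hcont (by
      intro t ht
      have ht0 : 0 < t := by linarith [ht.1]
      have him : ((σ : ℂ) + t * I).im = t := by simp
      refine pow_le_pow_left₀ (norm_nonneg _) ((hpoly _ ?_ ?_).trans ?_) 4
      · simp
        linarith
      · rw [him, abs_of_pos ht0]
        linarith [ht.1]
      · rw [him, abs_of_pos ht0]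
        apply mul_le_mul_of_nonneg_left _ hC₄.le
        exact pow_le_pow_left₀ ht0.le (by linarith [ht.2]) 3)
    refine h1.trans ?_
    calc (C₄ * 40 ^ 3) ^ 4 * (2 * T - T) ≤ (C₄ * 40 ^ 3) ^ 4 * T ^ (1 + ε) :=
          mul_le_mul_of_nonneg_left hTT (by positivity)
      _ ≤ _ := by
          apply mul_le_mul_of_nonneg_right _ hTp.le
          have : 0 ≤ 3 * (C₁ + C₂ + M ^ 2) + Real.exp C₃ ^ 4 := by positivity
          linarith
  set a : ℝ := -(σ + 1 / 2) with ha
  set b : ℝ := 2 - σ with hb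
  have ha0 : a < 0 := by linarith
  have hb0 : 0 < b := by linarith
  set V : ℝ := T / 2 with hV
  have hV1 : 1 ≤ V := by linarith
  have hPb : Continuous fun u : ℝ => riemannZeta ((2 : ℂ) + (u : ℂ) * I) ^ 2 :=
    (FM_cont' (τ := 2) (by simp)).pow 2
  have hPa : Continuous fun u : ℝ => riemannZeta ((-1 / 2 : ℂ) + (u : ℂ) * I) ^ 2 :=
    (FM_cont' (τ := -1 / 2) (by norm_num)).pow 2
  have hka := FR_ker_cont (T := T) hT0 ha0.ne
  have hkb := FR_ker_cont (T := T) hT0 hb0.ne'
  have hpt : ∀ t ∈ Set.Icc T (2 * T), ‖riemannZeta ((σ : ℂ) + t * I) ^ 2‖ ≤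
      ‖∫ v in (-V)..V, (fun u : ℝ => riemannZeta ((2 : ℂ) + (u : ℂ) * I) ^ 2) (t + v) *
        ker T b v‖ +
      ‖∫ v in (-V)..V, (fun u : ℝ => riemannZeta ((-1 / 2 : ℂ) + (u : ℂ) * I) ^ 2) (t + v) *
        ker T a v‖ + M := by
    intro t ht
    have ht1 := ht.1
    have ht2 := ht.2
    set G : ℂ → ℂ := fun w => riemannZeta ((σ : ℂ) + t * I + w) ^ 2 *
      ((T : ℂ) ^ w * Complex.exp (w ^ 2)) with hG
    have hbd : ∀ x v : ℝ, a ≤ x → x ≤ b → |v| = V → ‖G ((x : ℂ) + v * I)‖ ≤ M := by
      intro x v hx hxb hv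
      rw [hG]
      simp only
      rw [norm_mul, norm_mul, norm_pow, FR_norm_exp_sq, FR_norm_cpow hT0]
      have him : ((σ : ℂ) + t * I + ((x : ℂ) + v * I)).im = t + v := by simp
      have hre : ((σ : ℂ) + t * I + ((x : ℂ) + v * I)).re = σ + x := by simp
      have hv' := abs_le.mp hv.le
      have habs : |t + v| = t + v := abs_of_nonneg (by linarith [hv'.1])
      have f1 : ‖riemannZeta ((σ : ℂ) + t * I + ((x : ℂ) + v * I))‖ ≤ C₄ * (3 * T) ^ 3 := by
        refine (hpoly _ ?_ ?_).trans ?_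
        · rw [hre]
          linarith
        · rw [him, habs]
          linarith [hv'.1]
        · rw [him, habs]
          apply mul_le_mul_of_nonneg_left _ hC₄.le
          exact pow_le_pow_left₀ (by linarith [hv'.1]) (by linarith [hv'.2]) 3
      have f3 : T ^ x ≤ T ^ 2 := by
        rw [← Real.rpow_natCast]
        exact Real.rpow_le_rpow_of_exponent_le hT1 (by push_cast; linarith)
      have hv2 : v ^ 2 = T ^ 2 / 4 := by rw [← sq_abs, hv, hV]; ring
      have f4 : Real.exp (x ^ 2 - v ^ 2) ≤ Real.exp 4 * Real.exp (-(T ^ 2 / 4)) := by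
        rw [← Real.exp_add, hv2]
        apply Real.exp_le_exp.mpr
        nlinarith
      have f5 := FR_exp_le 4 (y := T ^ 2 / 4) (by positivity)
      have f6 : ((4 : ℕ).factorial : ℝ) = 24 := by norm_num [Nat.factorial]
      rw [f6] at f5
      calc _ ≤ (C₄ * (3 * T) ^ 3) ^ 2 * (T ^ 2 * (Real.exp 4 * Real.exp (-(T ^ 2 / 4)))) := by
            apply mul_le_mul (pow_le_pow_left₀ (norm_nonneg _) f1 2) _ (by positivity)
              (by positivity)
            exact mul_le_mul f3 f4 (Real.exp_pos _).le (by positivity)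
        _ = 729 * C₄ ^ 2 * 256 * Real.exp 4 * ((T ^ 2 / 4) ^ 4 * Real.exp (-(T ^ 2 / 4))) := by
            ring
        _ ≤ 729 * C₄ ^ 2 * 256 * Real.exp 4 * 24 := mul_le_mul_of_nonneg_left f5 (by positivity)
        _ = M := by rw [hM]
    have hres := ct_res (G := G) (a := a) (b := b) (V := V) (M := M) ha0 hb0 (by
      rw [ha, hb, hV]
      linarith) (by
      intro z _ _ hz
      rw [hG]
      apply DifferentiableAt.mul
      · apply DifferentiableAt.pow
        have h1 : DifferentiableAt ℂ riemannZeta ((σ : ℂ) + t * I + z) := by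
          apply differentiableAt_riemannZeta
          intro h
          have := congrArg Complex.im h
          simp at this
          have h2 := abs_le.mp hz
          linarith [h2.1]
        exact DifferentiableAt.comp (g := riemannZeta)
          (f := fun w : ℂ => (σ : ℂ) + t * I + w) z h1 (by fun_prop)
      · apply DifferentiableAt.mul _ (by fun_prop)
        apply DifferentiableAt.const_cpow differentiableAt_id
        left
        exact_mod_cast hT0.ne')
      (by
        intro x hx hxb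
        refine ⟨hbd x V hx hxb (abs_of_pos (by linarith)), ?_⟩
        have := hbd x (-V) hx hxb (by rw [abs_neg]; exact abs_of_pos (by linarith))
        have e : (x : ℂ) + ((-V : ℝ) : ℂ) * I = (x : ℂ) - V * I := by push_cast; ring
        rwa [e] at this)
    have e0 : ‖G 0‖ = ‖riemannZeta ((σ : ℂ) + t * I) ^ 2‖ := by
      rw [hG]
      simp
    have e1 : (∫ v in (-V)..V, G ((b : ℂ) + v * I) / ((b : ℂ) + v * I)) =
        ∫ v in (-V)..V, (fun u : ℝ => riemannZeta ((2 : ℂ) + (u : ℂ) * I) ^ 2) (t + v) *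
          ker T b v := by
      apply intervalIntegral.integral_congr
      intro v _
      simp only
      rw [hG]
      unfold ker
      simp only
      have e : (σ : ℂ) + t * I + ((b : ℂ) + v * I) = (2 : ℂ) + ((t + v : ℝ) : ℂ) * I := by
        rw [hb]
        push_cast
        ring
      rw [e]
      ring
    have e2 : (∫ v in (-V)..V, G ((a : ℂ) + v * I) / ((a : ℂ) + v * I)) =
        ∫ v in (-V)..V, (fun u : ℝ => riemannZeta ((-1 / 2 : ℂ) + (u : ℂ) * I) ^ 2) (t + v) *
          ker T a v := by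
      apply intervalIntegral.integral_congr
      intro v _
      simp only
      rw [hG]
      unfold ker
      simp only
      have e : (σ : ℂ) + t * I + ((a : ℂ) + v * I) = (-1 / 2 : ℂ) + ((t + v : ℝ) : ℂ) * I := by
        rw [ha]
        push_cast
        ring
      rw [e]
      ring
    rw [e0, e1, e2] at hres
    exact hres
  have hmain := FR_split (A := T) (B := 2 * T) (by linarith) ((FM_cont hT0).pow 2)
    (FR_par_cont hPb hkb V) (FR_par_cont hPa hka V) hM0.le hpt
  have e4 : (∫ t in T..(2 * T), ‖riemannZeta ((σ : ℂ) + t * I)‖ ^ 4) =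
      ∫ t in T..(2 * T), ‖riemannZeta ((σ : ℂ) + t * I) ^ 2‖ ^ 2 := by
    apply intervalIntegral.integral_congr
    intro t _
    simp only
    rw [norm_pow, ← pow_mul]
  rw [e4]
  refine hmain.trans ?_
  have h1 := hfr T σ hT hσ hs
  have h2 := hfl T σ hT hσ hs
  have h3 : M ^ 2 * (2 * T - T) ≤ M ^ 2 * T ^ (1 + ε) :=
    mul_le_mul_of_nonneg_left hTT (by positivity)
  calc _ ≤ 3 * (C₁ * T ^ (1 + ε) + C₂ * T ^ (1 + ε) + M ^ 2 * T ^ (1 + ε)) := by
        apply mul_le_mul_of_nonneg_left _ (by norm_num)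
        exact add_le_add (add_le_add h1 h2) h3
    _ = 3 * (C₁ + C₂ + M ^ 2) * T ^ (1 + ε) := by ring
    _ ≤ _ := by
        apply mul_le_mul_of_nonneg_right _ hTp.le
        have : 0 ≤ (C₄ * 40 ^ 3) ^ 4 + Real.exp C₃ ^ 4 := by positivity
        linarith

end Pool.Agent.helper84.DM
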