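import Pool.Agent.helper23.DM.FR
import Pool.Agent.helper74.DM.XA
import Pool.Agent.helper74.DM.XB

/-!
DM project (MP_4467b5_nt), module FL: the left part of the fourth moment.
-/

set_option autoImplicit false

open Complex Metric MeasureTheory

namespace Pool.Agent.helper84.DM

/-- The integrand of the head. -/
noncomputable def FLf (T σ t : ℝ) (w : ℂ) : ℂ :=
  X (1 - ((σ : ℂ) + t * I + w)) ^ 2 *
    (∑ n ∈ Finset.Icc 1 ⌊T⌋₊, (d n : ℂ) * (n : ℂ) ^ (-(1 - ((σ : ℂ) + t * I + w)))) *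
    ((T : ℂ) ^ w * Complex.exp (w ^ 2) / w)

theorem FL_f_val (T σ t x v : ℝ) : FLf T σ t ((x : ℂ) + v * I) =
    X (((1 - σ - x : ℝ) : ℂ) + ((-(t + v) : ℝ) : ℂ) * I) ^ 2 *
    (∑ n ∈ Finset.Icc 1 ⌊T⌋₊, ((d n * (n : ℝ) ^ (-(1 - σ - x)) : ℝ) : ℂ) *
      (n : ℂ) ^ (-(((-(t + v) : ℝ) : ℂ) * I))) * ker T x v := by
  unfold FLf ker
  have e : 1 - ((σ : ℂ) + t * I + ((x : ℂ) + v * I)) =
      ((1 - σ - x : ℝ) : ℂ) + ((-(t + v) : ℝ) : ℂ) * I := by
    push_cast
    ring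
  rw [e]
  congr 2
  apply Finset.sum_congr rfl
  intro n hn
  have hn1 : 1 ≤ n := (Finset.mem_Icc.mp hn).1
  rw [FR_term hn1]
  push_cast
  ring

theorem FL_f_diff {T σ t : ℝ} (hT : 0 < T) {w : ℂ} (hw : w ≠ 0) (hre : w.re < 1 - σ) :
    DifferentiableAt ℂ (FLf T σ t) w := by
  unfold FLf
  apply DifferentiableAt.mul
  · apply DifferentiableAt.mul
    · apply DifferentiableAt.pow
      have h1 : DifferentiableAt ℂ X (1 - ((σ : ℂ) + t * I + w)) := by
        apply X_diff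
        simp
        linarith
      exact DifferentiableAt.comp (g := X) (f := fun w : ℂ => 1 - ((σ : ℂ) + t * I + w)) w h1
        (by fun_prop)
    · apply DifferentiableAt.fun_sum
      intro n hn
      have hn1 : 1 ≤ n := (Finset.mem_Icc.mp hn).1
      have hn0 : (n : ℂ) ≠ 0 := by
        have : n ≠ 0 := by omega
        exact_mod_cast this
      apply DifferentiableAt.const_mul
      apply DifferentiableAt.const_cpow (by fun_prop)
      left
      exact hn0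
  · apply DifferentiableAt.div _ differentiableAt_id hw
    apply DifferentiableAt.mul _ (by fun_prop)
    apply DifferentiableAt.const_cpow differentiableAt_id
    left
    exact_mod_cast hT.ne'

theorem FL_X_cont {τ : ℝ} (hτ : 0 < τ) : Continuous fun u : ℝ => X ((τ : ℂ) + ((-u : ℝ) : ℂ) * I) := by
  rw [continuous_iff_continuousAt]
  intro u
  have h1 : ContinuousAt X ((τ : ℂ) + ((-u : ℝ) : ℂ) * I) := by
    apply (X_diff _ _).continuousAt
    simpa using hτ
  exact ContinuousAt.comp (f := fun u : ℝ => (τ : ℂ) + ((-u : ℝ) : ℂ) * I) h1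
    (by fun_prop : Continuous fun u : ℝ => (τ : ℂ) + ((-u : ℝ) : ℂ) * I).continuousAt

theorem FL_neg (S : ℝ → ℝ) {A L K : ℝ} (h : ∀ A' : ℝ, ∫ t in A'..(A' + L), S t ≤ K) :
    ∫ u in A..(A + L), S (-u) ≤ K := by
  rw [intervalIntegral.integral_comp_neg]
  have := h (-(A + L))
  have e : -(A + L) + L = -A := by ring
  rwa [e] at this

theorem fl (η ε : ℝ) (hη : 0 < η) (_hη1 : η ≤ 1 / 4) (hε : 0 < ε) : ∃ C : ℝ, 0 < C ∧
    ∀ T σ : ℝ, 2 ≤ T → 1 / 2 + η ≤ σ → σ ≤ 3 / 2 →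
      ∫ t in T..(2 * T), ‖∫ v in (-(T / 2))..(T / 2),
        riemannZeta ((-1 / 2 : ℂ) + (t + v : ℝ) * I) ^ 2 * ker T (-(σ + 1 / 2)) v‖ ^ 2
          ≤ C * T ^ (1 + ε) := by
  set δ : ℝ := min (ε / 16) (1 / 8) with hδdef
  have hδ : 0 < δ := by positivity
  have hδ1 : δ ≤ 1 / 8 := min_le_right _ _
  have hδε : δ ≤ ε / 16 := min_le_left _ _
  obtain ⟨Ch, hCh, hhead⟩ := FR_head δ hδ hδ1
  obtain ⟨Ct, hCt, htail⟩ := FR_tail δ 3 hδ hδ1 (by norm_num) (by norm_num)
  obtain ⟨Cx, hCx, hX⟩ := X_upper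
  set M : ℝ := 81 * Cx ^ 2 * 64 * Real.exp 4 * 6 with hM
  have hM0 : 0 < M := by positivity
  set K₁ : ℝ := 2 * Real.exp 4 with hK₁
  set K₂ : ℝ := 2 * Real.exp 1 / η with hK₂
  refine ⟨3 * (K₁ ^ 2 * Ct + K₂ ^ 2 * Ch + (2 * M) ^ 2), by positivity, ?_⟩
  intro T σ hT hσ hσ1
  have hT0 : 0 < T := by linarith
  have hT1 : 1 ≤ T := by linarith
  set a : ℝ := -(σ + 1 / 2) with ha
  set b : ℝ := 1 / 2 - σ with hb
  have ha1 : a ≤ -1 := by linarith
  have ha2 : -2 ≤ a := by linarith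
  have hb1 : b ≤ -η := by linarith
  have hb2 : -1 ≤ b := by linarith
  have ha0 : a ≠ 0 := by linarith
  have hb0 : b ≠ 0 := by linarith
  set V : ℝ := T / 2 with hV
  have hV1 : 1 ≤ V := by linarith
  -- the three parts
  set P₁ : ℝ → ℂ := fun u => X (((3 / 2 : ℝ) : ℂ) + ((-u : ℝ) : ℂ) * I) ^ 2 *
    (∑ n ∈ Finset.Icc 1 ⌊T⌋₊,
    ((d n * (n : ℝ) ^ (-(3 / 2 : ℝ)) : ℝ) : ℂ) * (n : ℂ) ^ (-(((-u : ℝ) : ℂ) * I))) with hP₁
  set P₂ : ℝ → ℂ := fun u => X (((3 / 2 : ℝ) : ℂ) + ((-u : ℝ) : ℂ) * I) ^ 2 *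
    (∑' n : ℕ, FRa T (3 / 2) n * (n : ℂ) ^ (-(((-u : ℝ) : ℂ) * I))) with hP₂
  set Q : ℝ → ℂ := fun u => X (((1 / 2 : ℝ) : ℂ) + ((-u : ℝ) : ℂ) * I) ^ 2 *
    (∑ n ∈ Finset.Icc 1 ⌊T⌋₊,
    ((d n * (n : ℝ) ^ (-(1 / 2 : ℝ)) : ℝ) : ℂ) * (n : ℂ) ^ (-(((-u : ℝ) : ℂ) * I))) with hQ
  have hP₁c : Continuous P₁ := ((FL_X_cont (by norm_num)).pow 2).mul
    ((FR_head_cont T (3 / 2)).comp continuous_neg)
  have hP₂c : Continuous P₂ := ((FL_X_cont (by norm_num)).pow 2).mul
    ((FR_tail_cont hT0.le (by norm_num)).comp continuous_neg)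
  have hQc : Continuous Q := ((FL_X_cont (by norm_num)).pow 2).mul
    ((FR_head_cont T (1 / 2)).comp continuous_neg)
  have hzeta : ∀ u : ℝ, riemannZeta ((-1 / 2 : ℂ) + (u : ℂ) * I) ^ 2 = P₁ u + P₂ u := by
    intro u
    have h1 := FR_zeta_sq (T := T) (τ := 3 / 2) (by norm_num) (-u)
    have h2 := zeta_one_sub (((3 / 2 : ℝ) : ℂ) + ((-u : ℝ) : ℂ) * I) (by simp) (by
      intro h
      have := congrArg Complex.re h
      simp at this
      norm_num at this)
    have e : 1 - (((3 / 2 : ℝ) : ℂ) + ((-u : ℝ) : ℂ) * I) = (-1 / 2 : ℂ) + (u : ℂ) * I := by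
      push_cast
      ring
    rw [e] at h2
    rw [h2, mul_pow, h1, hP₁, hP₂, mul_add]
  have hka := FR_ker_cont (T := T) hT0 ha0
  have hkb := FR_ker_cont (T := T) hT0 hb0
  -- pointwise bound
  have hpt : ∀ t ∈ Set.Icc T (2 * T), ‖∫ v in (-V)..V,
      riemannZeta ((-1 / 2 : ℂ) + (t + v : ℝ) * I) ^ 2 * ker T a v‖ ≤
      ‖∫ v in (-V)..V, P₂ (t + v) * ker T a v‖ + ‖∫ v in (-V)..V, Q (t + v) * ker T b v‖ +
        2 * M := by
    intro t ht
    have e1 : (∫ v in (-V)..V, riemannZeta ((-1 / 2 : ℂ) + (t + v : ℝ) * I) ^ 2 * ker T a v) =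
        (∫ v in (-V)..V, P₁ (t + v) * ker T a v) + ∫ v in (-V)..V, P₂ (t + v) * ker T a v := by
      rw [← intervalIntegral.integral_add]
      · apply intervalIntegral.integral_congr
        intro v _
        simp only
        rw [hzeta, add_mul]
      · exact ((hP₁c.comp (continuous_const.add continuous_id)).mul hka).intervalIntegrable _ _
      · exact ((hP₂c.comp (continuous_const.add continuous_id)).mul hka).intervalIntegrable _ _
    have hbd : ∀ x v : ℝ, a ≤ x → x ≤ b → |v| = V → ‖FLf T σ t ((x : ℂ) + v * I)‖ ≤ M := by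
      intro x v hx hxb hv
      rw [FL_f_val, norm_mul, norm_mul, norm_pow]
      have f1 := FR_head_norm (T := T) (τ := 1 - σ - x) hT0.le (by linarith) (-(t + v))
      have f2 := FR_norm_ker_le (T := T) (x := x) (v := v) hT0 (by rw [hv]; exact hV1)
      have f3 : T ^ x ≤ 1 := Real.rpow_le_one_of_one_le_of_nonpos hT1 (by linarith)
      have hv2 : v ^ 2 = T ^ 2 / 4 := by rw [← sq_abs, hv, hV]; ring
      have f4 : Real.exp (x ^ 2 - v ^ 2) ≤ Real.exp 4 * Real.exp (-(T ^ 2 / 4)) := by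
        rw [← Real.exp_add, hv2]
        apply Real.exp_le_exp.mpr
        nlinarith
      have f5 := FR_exp_le 3 (y := T ^ 2 / 4) (by positivity)
      have f6 : ((3 : ℕ).factorial : ℝ) = 6 := by norm_num [Nat.factorial]
      rw [f6] at f5
      have f7 : ‖X (((1 - σ - x : ℝ) : ℂ) + ((-(t + v) : ℝ) : ℂ) * I)‖ ≤ Cx * (3 * T) ^ 2 := by
        refine (hX _ ?_ ?_).trans ?_
        · simp
          linarith
        · simp
          linarith
        · apply mul_le_mul_of_nonneg_left _ hCx.le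
          apply pow_le_pow_left₀ (by positivity)
          have : (((1 - σ - x : ℝ) : ℂ) + ((-(t + v) : ℝ) : ℂ) * I).im = -(t + v) := by simp
          rw [this, abs_neg]
          have h1 := abs_add_le t v
          rw [hv, abs_of_pos (show (0 : ℝ) < t by linarith [ht.1])] at h1
          linarith [ht.2]
      have hE : 0 ≤ Real.exp (-(T ^ 2 / 4)) := (Real.exp_pos _).le
      calc _ ≤ (Cx * (3 * T) ^ 2) ^ 2 * T ^ 2 * (1 * (Real.exp 4 * Real.exp (-(T ^ 2 / 4)))) := by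
            apply mul_le_mul _ (f2.trans _) (norm_nonneg _) (by positivity)
            · exact mul_le_mul (pow_le_pow_left₀ (norm_nonneg _) f7 2) f1 (norm_nonneg _)
                (by positivity)
            · exact mul_le_mul f3 f4 (Real.exp_pos _).le (by positivity)
        _ = 81 * Cx ^ 2 * 64 * Real.exp 4 * ((T ^ 2 / 4) ^ 3 * Real.exp (-(T ^ 2 / 4))) := by ring
        _ ≤ 81 * Cx ^ 2 * 64 * Real.exp 4 * 6 := mul_le_mul_of_nonneg_left f5 (by positivity)
        _ = M := by rw [hM]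
    have hshift := ct_shift (f := FLf T σ t) (a := a) (b := b) (V := V) (M := M) (by linarith)
      (by linarith) (fun z hz hz2 _ => FL_f_diff hT0 (by
        intro h0
        rw [h0] at hz2
        simp only [Complex.zero_re] at hz2
        linarith) (by linarith))
      (by
        intro x hx hxb
        refine ⟨hbd x V hx hxb (abs_of_pos (by linarith)), ?_⟩
        have := hbd x (-V) hx hxb (by rw [abs_neg]; exact abs_of_pos (by linarith))
        have e : (x : ℂ) + ((-V : ℝ) : ℂ) * I = (x : ℂ) - V * I := by push_cast; ring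
        rwa [e] at this)
    have e2 : (∫ v in (-V)..V, FLf T σ t ((a : ℂ) + v * I)) =
        ∫ v in (-V)..V, P₁ (t + v) * ker T a v := by
      apply intervalIntegral.integral_congr
      intro v _
      simp only
      rw [FL_f_val, hP₁]
      have : 1 - σ - a = 3 / 2 := by rw [ha]; ring
      rw [this]
    have e3 : (∫ v in (-V)..V, FLf T σ t ((b : ℂ) + v * I)) =
        ∫ v in (-V)..V, Q (t + v) * ker T b v := by
      apply intervalIntegral.integral_congr
      intro v _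
      simp only
      rw [FL_f_val, hQ]
      have : 1 - σ - b = 1 / 2 := by rw [hb]; ring
      rw [this]
    rw [e2, e3] at hshift
    have e4 : 2 * (b - a) * M ≤ 2 * M := by
      apply mul_le_mul_of_nonneg_right _ hM0.le
      rw [hb, ha]
      linarith
    rw [norm_sub_rev] at hshift
    have e5 := norm_sub_norm_le (∫ v in (-V)..V, P₁ (t + v) * ker T a v)
      (∫ v in (-V)..V, Q (t + v) * ker T b v)
    rw [e1]
    have e6 := norm_add_le (∫ v in (-V)..V, P₁ (t + v) * ker T a v)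
      (∫ v in (-V)..V, P₂ (t + v) * ker T a v)
    linarith
  have hFc : Continuous fun t : ℝ => ∫ v in (-V)..V,
      riemannZeta ((-1 / 2 : ℂ) + (t + v : ℝ) * I) ^ 2 * ker T a v := by
    have : (fun t : ℝ => ∫ v in (-V)..V,
        riemannZeta ((-1 / 2 : ℂ) + (t + v : ℝ) * I) ^ 2 * ker T a v) =
        fun t : ℝ => ∫ v in (-V)..V, (fun u => P₁ u + P₂ u) (t + v) * ker T a v := by
      funext t
      apply intervalIntegral.integral_congr
      intro v _
      simp only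
      rw [hzeta]
    rw [this]
    exact FR_par_cont (hP₁c.add hP₂c) hka V
  have hmain := FR_split (A := T) (B := 2 * T) (by linarith) hFc.continuousOn
    (FR_par_cont hP₂c hka V) (FR_par_cont hQc hkb V) (by positivity) hpt
  -- mean values
  have hP₂int : ∫ u in (T / 2)..(T / 2 + 2 * T), ‖P₂ u‖ ^ 2 ≤
      T ^ 4 * (Ct * T ^ (2 - 3 + 4 * δ)) := by
    have h1 : ∫ u in (T / 2)..(T / 2 + 2 * T), ‖P₂ u‖ ^ 2 ≤
        ∫ u in (T / 2)..(T / 2 + 2 * T), T ^ 4 *
          ‖∑' n : ℕ, FRa T (3 / 2) n * (n : ℂ) ^ (-(((-u : ℝ) : ℂ) * I))‖ ^ 2 := by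
      apply intervalIntegral.integral_mono_on (by linarith)
      · exact (hP₂c.norm.pow 2).intervalIntegrable _ _
      · exact (continuous_const.mul (((FR_tail_cont hT0.le (by norm_num)).comp
          continuous_neg).norm.pow 2)).intervalIntegrable _ _
      · intro u hu
        rw [hP₂]
        simp only
        rw [norm_mul, norm_pow, mul_pow, ← pow_mul]
        apply mul_le_mul_of_nonneg_right _ (by positivity)
        have hx : ‖X (((3 / 2 : ℝ) : ℂ) + ((-u : ℝ) : ℂ) * I)‖ ≤ T := by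
          have h3 := X_three_half (-u)
          have e : ((3 / 2 : ℝ) : ℂ) = (3 / 2 : ℂ) := by push_cast; ring
          rw [e, h3, div_le_iff₀ (by positivity)]
          have h4 := Complex.norm_le_abs_re_add_abs_im ((1 / 2 : ℂ) + ((-u : ℝ) : ℂ) * I)
          have h5 : ((1 / 2 : ℂ) + ((-u : ℝ) : ℂ) * I).re = 1 / 2 := by simp
          have h6 : ((1 / 2 : ℂ) + ((-u : ℝ) : ℂ) * I).im = -u := by simp
          rw [h5, h6, abs_neg, abs_of_pos (by linarith [hu.1] : (0 : ℝ) < u),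
            abs_of_pos (by norm_num)] at h4
          have hpi := Real.pi_gt_three
          nlinarith [hu.2]
        exact pow_le_pow_left₀ (norm_nonneg _) hx 4
    refine h1.trans ?_
    rw [intervalIntegral.integral_const_mul]
    apply mul_le_mul_of_nonneg_left _ (by positivity)
    apply FL_neg (fun t => ‖∑' n : ℕ, FRa T (3 / 2) n * (n : ℂ) ^ (-((t : ℂ) * I))‖ ^ 2)
    intro A'
    exact htail T A' hT
  have hQint : ∫ u in (T / 2)..(T / 2 + 2 * T), ‖Q u‖ ^ 2 ≤ Ch * T ^ (1 + 4 * δ) := by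
    have h1 : ∫ u in (T / 2)..(T / 2 + 2 * T), ‖Q u‖ ^ 2 =
        ∫ u in (T / 2)..(T / 2 + 2 * T), ‖∑ n ∈ Finset.Icc 1 ⌊T⌋₊,
    ((d n * (n : ℝ) ^ (-(1 / 2 : ℝ)) : ℝ) : ℂ) * (n : ℂ) ^ (-(((-u : ℝ) : ℂ) * I))‖ ^ 2 := by
      apply intervalIntegral.integral_congr
      intro u _
      simp only [hQ]
      have h3 := X_half (-u)
      have e : ((1 / 2 : ℝ) : ℂ) = (1 / 2 : ℂ) := by push_cast; ring
      rw [norm_mul, norm_pow, e, h3, one_pow, one_mul]
    rw [h1]
    apply FL_neg (fun t => ‖∑ n ∈ Finset.Icc 1 ⌊T⌋₊,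
      ((d n * (n : ℝ) ^ (-(1 / 2 : ℝ)) : ℝ) : ℂ) * (n : ℂ) ^ (-((t : ℂ) * I))‖ ^ 2)
    intro A'
    exact hhead T (1 / 2) A' hT le_rfl
  have hG := FR_conv (T := T) (c := a) (K := K₁ * T ^ a)
    (L := T ^ 4 * (Ct * T ^ (2 - 3 + 4 * δ))) (P := P₂) hT ha0 hP₂c (by
      rw [abs_of_neg (by linarith), div_le_iff₀ (by linarith)]
      have g1 : Real.exp (a ^ 2) ≤ Real.exp 4 := Real.exp_le_exp.mpr (by nlinarith)
      calc 2 * T ^ a * Real.exp (a ^ 2) ≤ 2 * T ^ a * Real.exp 4 :=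
            mul_le_mul_of_nonneg_left g1 (by positivity)
        _ = K₁ * T ^ a * 1 := by rw [hK₁]; ring
        _ ≤ K₁ * T ^ a * (-a) := mul_le_mul_of_nonneg_left (by linarith) (by positivity))
    hP₂int
  have hH := FR_conv (T := T) (c := b) (K := K₂) (L := Ch * T ^ (1 + 4 * δ)) (P := Q)
    hT hb0 hQc (by
      rw [abs_of_neg (by linarith), hK₂, div_le_div_iff₀ (by linarith) hη]
      have g1 : Real.exp (b ^ 2) ≤ Real.exp 1 := Real.exp_le_exp.mpr (by nlinarith)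
      have g2 : T ^ b ≤ 1 := Real.rpow_le_one_of_one_le_of_nonpos hT1 (by linarith)
      calc 2 * T ^ b * Real.exp (b ^ 2) * η ≤ 2 * 1 * Real.exp 1 * (-b) := by
            apply mul_le_mul _ (by linarith) hη.le (by positivity)
            apply mul_le_mul _ g1 (Real.exp_pos _).le (by norm_num)
            linarith
        _ = _ := by ring)
    hQint
  have hG2 : (K₁ * T ^ a) ^ 2 * (T ^ 4 * (Ct * T ^ (2 - 3 + 4 * δ))) ≤
      K₁ ^ 2 * Ct * T ^ (1 + ε) := by
    have g : (T ^ a) ^ 2 * (T ^ 4 * T ^ (2 - 3 + 4 * δ)) ≤ T ^ (1 + ε) := by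
      rw [← Real.rpow_natCast (T ^ a) 2, ← Real.rpow_natCast T 4, ← Real.rpow_mul hT0.le,
        ← Real.rpow_add hT0, ← Real.rpow_add hT0]
      apply Real.rpow_le_rpow_of_exponent_le hT1
      push_cast
      linarith
    calc _ = K₁ ^ 2 * Ct * ((T ^ a) ^ 2 * (T ^ 4 * T ^ (2 - 3 + 4 * δ))) := by ring
      _ ≤ _ := mul_le_mul_of_nonneg_left g (by positivity)
  have hH2 : K₂ ^ 2 * (Ch * T ^ (1 + 4 * δ)) ≤ K₂ ^ 2 * Ch * T ^ (1 + ε) := by
    have g : T ^ (1 + 4 * δ) ≤ T ^ (1 + ε) :=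
      Real.rpow_le_rpow_of_exponent_le hT1 (by linarith)
    calc _ = K₂ ^ 2 * Ch * T ^ (1 + 4 * δ) := by ring
      _ ≤ _ := mul_le_mul_of_nonneg_left g (by positivity)
  have hM2 : (2 * M) ^ 2 * (2 * T - T) ≤ (2 * M) ^ 2 * T ^ (1 + ε) := by
    apply mul_le_mul_of_nonneg_left _ (by positivity)
    calc 2 * T - T = T ^ (1 : ℝ) := by rw [Real.rpow_one]; ring
      _ ≤ T ^ (1 + ε) := Real.rpow_le_rpow_of_exponent_le hT1 (by linarith)
  calc _ ≤ _ := hmain
    _ ≤ 3 * (K₁ ^ 2 * Ct * T ^ (1 + ε) + K₂ ^ 2 * Ch * T ^ (1 + ε) +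
        (2 * M) ^ 2 * T ^ (1 + ε)) := by
      apply mul_le_mul_of_nonneg_left _ (by norm_num)
      exact add_le_add (add_le_add (hG.trans hG2) (hH.trans hH2)) hM2
    _ = _ := by ring

end Pool.Agent.helper84.DM
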