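import Pool.Agent.helper84.DM.Defs
import Pool.Agent.helper18.DM.MV
import Pool.Agent.helper44.DM.MVI
import Pool.Agent.helper59.DM.DV
import Pool.Agent.helper46.DM.SM
import Pool.Agent.helper91.DM.CT
import Pool.Agent.helper59.DM.KC

/-!
DM project (MP_4467b5_nt), module FR: the right part of the fourth moment, and tools shared with FL, FM.
-/

set_option autoImplicit false

open Complex Metric MeasureTheory

namespace Pool.Agent.helper84.DM

/-! ### General tools -/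

theorem FR_ker_cont {T c : ℝ} (hT : 0 < T) (hc : c ≠ 0) : Continuous (ker T c) := by
  unfold ker
  have hne : ∀ v : ℝ, (c : ℂ) + v * I ≠ 0 := by
    intro v h
    have := congrArg Complex.re h
    simp at this
    exact hc this
  apply Continuous.div _ (by fun_prop) hne
  apply Continuous.mul _ (by fun_prop)
  apply Continuous.const_cpow (by fun_prop)
  left
  exact_mod_cast hT.ne'

theorem FR_par_cont {P κ : ℝ → ℂ} (hP : Continuous P) (hκ : Continuous κ) (V : ℝ) :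
    Continuous fun t : ℝ => ∫ v in (-V)..V, P (t + v) * κ v := by
  apply intervalIntegral.continuous_parametric_intervalIntegral_of_continuous'
  fun_prop

theorem FR_split {F G H : ℝ → ℂ} {A B M : ℝ} (hAB : A ≤ B) (hF : ContinuousOn F (Set.Icc A B))
    (hG : Continuous G) (hH : Continuous H) (_hM : 0 ≤ M)
    (h : ∀ t ∈ Set.Icc A B, ‖F t‖ ≤ ‖G t‖ + ‖H t‖ + M) :
    ∫ t in A..B, ‖F t‖ ^ 2 ≤ 3 * ((∫ t in A..B, ‖G t‖ ^ 2) + (∫ t in A..B, ‖H t‖ ^ 2) +
      M ^ 2 * (B - A)) := by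
  have hFi : IntervalIntegrable (fun t => ‖F t‖ ^ 2) volume A B := by
    apply ContinuousOn.intervalIntegrable
    rw [Set.uIcc_of_le hAB]
    exact (hF.norm).pow 2
  have hGi : IntervalIntegrable (fun t => ‖G t‖ ^ 2) volume A B :=
    (hG.norm.pow 2).intervalIntegrable _ _
  have hHi : IntervalIntegrable (fun t => ‖H t‖ ^ 2) volume A B :=
    (hH.norm.pow 2).intervalIntegrable _ _
  have h1 : ∫ t in A..B, ‖F t‖ ^ 2 ≤ ∫ t in A..B, 3 * (‖G t‖ ^ 2 + ‖H t‖ ^ 2 + M ^ 2) := by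
    apply intervalIntegral.integral_mono_on hAB hFi
    · exact ((hGi.add hHi).add intervalIntegrable_const).const_mul 3
    · intro t ht
      have h2 := h t ht
      have h3 : ‖F t‖ ^ 2 ≤ (‖G t‖ + ‖H t‖ + M) ^ 2 :=
        pow_le_pow_left₀ (norm_nonneg _) h2 2
      nlinarith [sq_nonneg (‖G t‖ - ‖H t‖), sq_nonneg (‖G t‖ - M), sq_nonneg (‖H t‖ - M)]
  refine h1.trans (le_of_eq ?_)
  rw [intervalIntegral.integral_const_mul, intervalIntegral.integral_add (hGi.add hHi)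
    intervalIntegrable_const, intervalIntegral.integral_add hGi hHi,
    intervalIntegral.integral_const, smul_eq_mul]
  ring

/-- `y ^ k e ^ (-y) ≤ k!`. -/
theorem FR_exp_le (k : ℕ) {y : ℝ} (hy : 0 ≤ y) : y ^ k * Real.exp (-y) ≤ k.factorial := by
  have h := Real.pow_div_factorial_le_exp y hy k
  rw [div_le_iff₀ (by positivity)] at h
  rw [Real.exp_neg, ← div_eq_mul_inv, div_le_iff₀ (Real.exp_pos _)]
  linarith

theorem FR_norm_exp_sq (x v : ℝ) : ‖Complex.exp (((x : ℂ) + v * I) ^ 2)‖ = Real.exp (x ^ 2 - v ^ 2) := by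
  rw [Complex.norm_exp]
  congr 1
  simp [sq]

theorem FR_norm_cpow {T : ℝ} (hT : 0 < T) (x v : ℝ) : ‖(T : ℂ) ^ ((x : ℂ) + v * I)‖ = T ^ x := by
  rw [Complex.norm_cpow_eq_rpow_re_of_pos hT]
  congr 1
  simp

theorem FR_term {n : ℕ} (hn : 1 ≤ n) (τ u : ℝ) :
    (n : ℂ) ^ (-((τ : ℂ) + u * I)) = (((n : ℝ) ^ (-τ) : ℝ) : ℂ) * (n : ℂ) ^ (-(u * I)) := by
  have h0 : (n : ℂ) ≠ 0 := by
    have : n ≠ 0 := by omega
    exact_mod_cast this
  rw [neg_add, Complex.cpow_add _ _ h0, Complex.ofReal_cpow (by positivity)]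
  push_cast
  rfl

theorem FR_norm_coef {n : ℕ} (τ : ℝ) : ‖((d n * (n : ℝ) ^ (-τ) : ℝ) : ℂ)‖ ^ 2 =
    d n ^ 2 * (n : ℝ) ^ (-(2 * τ)) := by
  rw [Complex.norm_real, Real.norm_eq_abs, sq_abs, mul_pow, ← Real.rpow_natCast ((n : ℝ) ^ (-τ)),
    ← Real.rpow_mul (by positivity)]
  congr 2
  push_cast
  ring

theorem FR_d_nonneg (n : ℕ) : 0 ≤ d n := by unfold d; positivity

theorem FR_d_zero : d 0 = 0 := by simp [d]

theorem FR_d_le (n : ℕ) : d n ≤ n := by
  unfold d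
  exact_mod_cast Nat.card_divisors_le_self n

/-! ### Mean values of head and tail -/

theorem FR_head (δ : ℝ) (hδ : 0 < δ) (hδ1 : δ ≤ 1 / 8) : ∃ C : ℝ, 0 < C ∧ ∀ T τ A : ℝ, 2 ≤ T →
    1 / 2 ≤ τ → ∫ t in A..(A + 2 * T), ‖∑ n ∈ Finset.Icc 1 ⌊T⌋₊,
      ((d n * (n : ℝ) ^ (-τ) : ℝ) : ℂ) * (n : ℂ) ^ (-(t * I))‖ ^ 2 ≤ C * T ^ (1 + 4 * δ) := by
  obtain ⟨C₁, hC₁, h1⟩ := mv δ hδ (by linarith)
  obtain ⟨C₂, hC₂, h2⟩ := sm_head δ hδ hδ1
  refine ⟨(1 + C₁) * C₂, by positivity, ?_⟩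
  intro T τ A hT hτ
  refine (h1 (Finset.Icc 1 ⌊T⌋₊) _ A (2 * T) (by simp) (by linarith)).trans ?_
  rw [mul_assoc]
  refine le_trans ?_ (mul_le_mul_of_nonneg_left (h2 T hT) (by positivity))
  rw [Finset.mul_sum]
  apply Finset.sum_le_sum
  intro n hn
  have hn1 : 1 ≤ n := (Finset.mem_Icc.mp hn).1
  have hnR : (1 : ℝ) ≤ n := by exact_mod_cast hn1
  rw [FR_norm_coef]
  have e1 : (n : ℝ) ^ (-(2 * τ)) ≤ (n : ℝ) ^ (-(1 : ℝ)) :=
    Real.rpow_le_rpow_of_exponent_le hnR (by linarith)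
  have e2 : 2 * T + C₁ * (n : ℝ) ^ (1 + δ) ≤ (1 + C₁) * (3 * T + (n : ℝ) ^ (1 + δ)) := by
    have : 0 ≤ (n : ℝ) ^ (1 + δ) := by positivity
    nlinarith
  calc d n ^ 2 * (n : ℝ) ^ (-(2 * τ)) * (2 * T + C₁ * (n : ℝ) ^ (1 + δ))
      ≤ d n ^ 2 * (n : ℝ) ^ (-(1 : ℝ)) * ((1 + C₁) * (3 * T + (n : ℝ) ^ (1 + δ))) := by
        apply mul_le_mul (mul_le_mul_of_nonneg_left e1 (by positivity)) e2 (by positivity)
          (by positivity)
    _ = _ := by ring

/-- The coefficients of the tail. -/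
noncomputable def FRa (T τ : ℝ) (n : ℕ) : ℂ :=
  if T < (n : ℝ) then ((d n * (n : ℝ) ^ (-τ) : ℝ) : ℂ) else 0

theorem FR_a_summable {T τ : ℝ} (hτ : 1 < τ) : Summable fun n => ‖FRa T τ n‖ := by
  apply Summable.of_nonneg_of_le (fun n => norm_nonneg _) _ (d_summable τ hτ)
  intro n
  unfold FRa
  have h0 : 0 ≤ d n * (n : ℝ) ^ (-τ) := mul_nonneg (FR_d_nonneg n) (by positivity)
  split_ifs
  · rw [Complex.norm_real, Real.norm_eq_abs, abs_of_nonneg h0]
  · rw [norm_zero]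
    exact h0

theorem FR_tail (δ β : ℝ) (hδ : 0 < δ) (hδ1 : δ ≤ 1 / 8) (hβ : 3 ≤ β) (hβ1 : β ≤ 4) :
    ∃ C : ℝ, 0 < C ∧ ∀ T A : ℝ, 2 ≤ T →
      ∫ t in A..(A + 2 * T), ‖∑' n : ℕ, FRa T (β / 2) n * (n : ℂ) ^ (-(t * I))‖ ^ 2 ≤
        C * T ^ (2 - β + 4 * δ) := by
  obtain ⟨C₁, hC₁, h1⟩ := mv_tsum δ hδ (by linarith)
  obtain ⟨C₂, hC₂, h2⟩ := sm_tail δ β hδ hδ1 hβ hβ1
  refine ⟨(1 + C₁) * C₂, by positivity, ?_⟩
  intro T A hT
  obtain ⟨h3, h4⟩ := h2 T hT
  have hsq : ∀ n : ℕ, ‖FRa T (β / 2) n‖ ^ 2 = if T < (n : ℝ) then d n ^ 2 * (n : ℝ) ^ (-β) else 0 := by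
    intro n
    unfold FRa
    split_ifs
    · rw [FR_norm_coef]
      congr 2
      ring
    · simp
  have hle : ∀ (n : ℕ) (x y K : ℝ), 0 ≤ y → y ≤ K * x → ‖FRa T (β / 2) n‖ ^ 2 * y ≤
      K * (if T < (n : ℝ) then d n ^ 2 * (n : ℝ) ^ (-β) * x else 0) := by
    intro n x y K hy hxy
    rw [hsq]
    split_ifs
    · have : 0 ≤ d n ^ 2 * (n : ℝ) ^ (-β) := by positivity
      nlinarith
    · simp
  have hn0 : ∀ n : ℕ, 0 ≤ (n : ℝ) ^ (1 + δ) := fun n => by positivity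
  have hs1 : Summable fun n : ℕ => ‖FRa T (β / 2) n‖ ^ 2 * (n : ℝ) ^ (1 + δ) := by
    apply Summable.of_nonneg_of_le (fun n => by positivity) _ (h3.mul_left 1)
    intro n
    apply hle n _ _ 1 (hn0 n)
    linarith [hn0 n]
  have hs2 : Summable fun n : ℕ => ‖FRa T (β / 2) n‖ ^ 2 * (2 * T + C₁ * (n : ℝ) ^ (1 + δ)) := by
    apply Summable.of_nonneg_of_le (fun n => by positivity) _ (h3.mul_left (1 + C₁))
    intro n
    apply hle n _ _ (1 + C₁) (by positivity)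
    have := hn0 n
    nlinarith
  refine (h1 (FRa T (β / 2)) A (2 * T) ?_ (by linarith) (FR_a_summable (by linarith)) hs1).trans ?_
  · unfold FRa
    rw [if_neg]
    push_cast
    linarith
  · rw [mul_assoc]
    refine le_trans ?_ (mul_le_mul_of_nonneg_left h4 (by positivity))
    rw [← tsum_mul_left]
    apply hs2.tsum_le_tsum _ (h3.mul_left (1 + C₁))
    intro n
    apply hle n _ _ (1 + C₁) (by positivity)
    have := hn0 n
    nlinarith

/-- The head and the tail of the series of `ζ²`. -/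
theorem FR_zeta_sq {T τ : ℝ} (hτ : 1 < τ) (u : ℝ) : riemannZeta ((τ : ℂ) + u * I) ^ 2 =
    (∑ n ∈ Finset.Icc 1 ⌊T⌋₊, ((d n * (n : ℝ) ^ (-τ) : ℝ) : ℂ) * (n : ℂ) ^ (-(u * I))) +
      ∑' n : ℕ, FRa T τ n * (n : ℂ) ^ (-(u * I)) := by
  have h1 : 1 < ((τ : ℂ) + u * I).re := by simpa using hτ
  rw [zeta_sq _ h1]
  set g : ℕ → ℂ := fun n => ((d n * (n : ℝ) ^ (-τ) : ℝ) : ℂ) * (n : ℂ) ^ (-(u * I)) with hg
  have h2 : ∀ n : ℕ, (d n : ℂ) * (n : ℂ) ^ (-((τ : ℂ) + u * I)) = g n := by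
    intro n
    rcases Nat.eq_zero_or_pos n with h | h
    · subst h
      simp [hg, FR_d_zero]
    · rw [FR_term h, hg]
      push_cast
      ring
  have hunit : ∀ n : ℕ, ‖(n : ℂ) ^ (-(u * I))‖ ≤ 1 := by
    intro n
    rcases Nat.eq_zero_or_pos n with h | h
    · subst h
      rcases eq_or_ne u 0 with h' | h'
      · subst h'; simp
      · rw [Nat.cast_zero, Complex.zero_cpow]
        · simp
        · simp [h']
    · rw [Complex.norm_natCast_cpow_of_pos h]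
      simp
  have hs : Summable fun n : ℕ => FRa T τ n * (n : ℂ) ^ (-(u * I)) := by
    apply Summable.of_norm_bounded (FR_a_summable (T := T) hτ)
    intro n
    rw [norm_mul]
    exact mul_le_of_le_one_right (norm_nonneg _) (hunit n)
  have h3 : ∀ n : ℕ, g n = (if n ∈ Finset.Icc 1 ⌊T⌋₊ then g n else 0) +
      FRa T τ n * (n : ℂ) ^ (-(u * I)) := by
    intro n
    unfold FRa
    rcases Nat.eq_zero_or_pos n with h | h
    · subst h
      simp [hg, FR_d_zero]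
    · by_cases hT : T < (n : ℝ)
      · rw [if_pos hT, if_neg]
        · simp [hg]
        · rw [Finset.mem_Icc, not_and, not_le]
          intro _
          exact Nat.floor_lt' (by omega) |>.mpr hT
      · rw [if_neg hT, if_pos]
        · simp
        · rw [Finset.mem_Icc]
          refine ⟨h, ?_⟩
          exact Nat.le_floor (not_lt.mp hT)
  have h4 : Summable fun n : ℕ => (if n ∈ Finset.Icc 1 ⌊T⌋₊ then g n else 0) :=
    summable_of_ne_finset_zero (s := Finset.Icc 1 ⌊T⌋₊) (fun n hn => if_neg hn)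
  rw [tsum_congr h2, tsum_congr h3, h4.tsum_add hs]
  congr 1
  rw [tsum_eq_sum (s := Finset.Icc 1 ⌊T⌋₊) (fun n hn => if_neg hn)]
  exact Finset.sum_congr rfl fun n hn => if_pos hn

theorem FR_head_cont (T τ : ℝ) : Continuous fun u : ℝ => ∑ n ∈ Finset.Icc 1 ⌊T⌋₊,
    ((d n * (n : ℝ) ^ (-τ) : ℝ) : ℂ) * (n : ℂ) ^ (-(u * I)) := by
  apply continuous_finsetSum
  intro n hn
  have hn1 : 1 ≤ n := (Finset.mem_Icc.mp hn).1
  apply Continuous.mul continuous_const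
  apply Continuous.const_cpow (by fun_prop)
  left
  have : n ≠ 0 := by omega
  exact_mod_cast this

theorem FR_tail_cont {T τ : ℝ} (hT : 0 ≤ T) (hτ : 1 < τ) : Continuous fun u : ℝ =>
    ∑' n : ℕ, FRa T τ n * (n : ℂ) ^ (-(u * I)) := by
  apply continuous_tsum _ (FR_a_summable (T := T) hτ)
  · intro n u
    rw [norm_mul]
    rcases Nat.eq_zero_or_pos n with h | h
    · subst h
      unfold FRa
      rw [if_neg (by push_cast; linarith)]
      simp
    · rw [Complex.norm_natCast_cpow_of_pos h]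
      simp
  · intro n
    rcases Nat.eq_zero_or_pos n with h | h
    · subst h
      unfold FRa
      simp only [CharP.cast_eq_zero]
      rw [if_neg (by linarith)]
      simp only [zero_mul]
      exact continuous_const
    · apply Continuous.mul continuous_const
      apply Continuous.const_cpow (by fun_prop)
      left
      have : n ≠ 0 := by omega
      exact_mod_cast this

/-! ### The shift of the head -/

/-- The integrand of the head. -/
noncomputable def FRf (T σ t : ℝ) (w : ℂ) : ℂ :=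
  (∑ n ∈ Finset.Icc 1 ⌊T⌋₊, (d n : ℂ) * (n : ℂ) ^ (-((σ : ℂ) + t * I + w))) *
    ((T : ℂ) ^ w * Complex.exp (w ^ 2) / w)

theorem FR_f_val (T σ t x v : ℝ) : FRf T σ t ((x : ℂ) + v * I) =
    (∑ n ∈ Finset.Icc 1 ⌊T⌋₊, ((d n * (n : ℝ) ^ (-(σ + x)) : ℝ) : ℂ) *
      (n : ℂ) ^ (-(((t + v : ℝ) : ℂ) * I))) * ker T x v := by
  unfold FRf ker
  congr 1
  apply Finset.sum_congr rfl
  intro n hn
  have hn1 : 1 ≤ n := (Finset.mem_Icc.mp hn).1
  have e : (σ : ℂ) + t * I + ((x : ℂ) + v * I) = ((σ + x : ℝ) : ℂ) + ((t + v : ℝ) : ℂ) * I := by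
    push_cast
    ring
  rw [e, FR_term hn1]
  push_cast
  ring

theorem FR_f_diff {T σ t : ℝ} (hT : 0 < T) {w : ℂ} (hw : w ≠ 0) :
    DifferentiableAt ℂ (FRf T σ t) w := by
  unfold FRf
  apply DifferentiableAt.mul
  · apply DifferentiableAt.fun_sum
    intro n hn
    have hn1 : 1 ≤ n := (Finset.mem_Icc.mp hn).1
    have hn0 : (n : ℂ) ≠ 0 := by
      have : n ≠ 0 := by omega
      exact_mod_cast this
    apply DifferentiableAt.const_mul
    apply DifferentiableAt.const_cpow (by fun_prop)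
    left
    exact hn0
  · apply DifferentiableAt.div _ differentiableAt_id hw
    apply DifferentiableAt.mul _ (by fun_prop)
    apply DifferentiableAt.const_cpow differentiableAt_id
    left
    exact_mod_cast hT.ne'

theorem FR_norm_ker {T : ℝ} (hT : 0 < T) (x v : ℝ) :
    ‖ker T x v‖ = T ^ x * Real.exp (x ^ 2 - v ^ 2) / ‖(x : ℂ) + v * I‖ := by
  unfold ker
  rw [norm_div, norm_mul, FR_norm_exp_sq, FR_norm_cpow hT]

theorem FR_norm_ker_le {T x v : ℝ} (hT : 0 < T) (hv : 1 ≤ |v|) :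
    ‖ker T x v‖ ≤ T ^ x * Real.exp (x ^ 2 - v ^ 2) := by
  rw [FR_norm_ker hT]
  apply div_le_self (by positivity)
  have := Complex.abs_im_le_norm ((x : ℂ) + v * I)
  simp only [add_im, ofReal_im, mul_im, ofReal_re, I_im, mul_one, I_re, mul_zero, add_zero,
    zero_add] at this
  linarith

theorem FR_head_norm {T τ : ℝ} (hT : 0 ≤ T) (hτ : 0 ≤ τ) (u : ℝ) :
    ‖∑ n ∈ Finset.Icc 1 ⌊T⌋₊, ((d n * (n : ℝ) ^ (-τ) : ℝ) : ℂ) *
      (n : ℂ) ^ (-((u : ℂ) * I))‖ ≤ T ^ 2 := by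
  refine (norm_sum_le _ _).trans ?_
  have h1 : ∀ n ∈ Finset.Icc 1 ⌊T⌋₊, ‖((d n * (n : ℝ) ^ (-τ) : ℝ) : ℂ) *
      (n : ℂ) ^ (-((u : ℂ) * I))‖ ≤ T := by
    intro n hn
    obtain ⟨hn1, hn2⟩ := Finset.mem_Icc.mp hn
    have hnT : (n : ℝ) ≤ T := (Nat.le_floor_iff hT).mp hn2
    have hnR : (1 : ℝ) ≤ n := by exact_mod_cast hn1
    rw [norm_mul, Complex.norm_natCast_cpow_of_pos (by omega)]
    have e1 : (n : ℝ) ^ (-((u : ℂ) * I)).re = 1 := by simp
    rw [e1, mul_one, Complex.norm_real, Real.norm_eq_abs,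
      abs_of_nonneg (mul_nonneg (FR_d_nonneg n) (by positivity))]
    have e2 : (n : ℝ) ^ (-τ) ≤ 1 := Real.rpow_le_one_of_one_le_of_nonpos hnR (by linarith)
    calc d n * (n : ℝ) ^ (-τ) ≤ d n * 1 := mul_le_mul_of_nonneg_left e2 (FR_d_nonneg n)
      _ ≤ T := by rw [mul_one]; exact (FR_d_le n).trans hnT
  refine (Finset.sum_le_card_nsmul _ _ T h1).trans ?_
  rw [Nat.card_Icc, nsmul_eq_mul, sq]
  apply mul_le_mul_of_nonneg_right _ hT
  have : ((⌊T⌋₊ + 1 - 1 : ℕ) : ℝ) = (⌊T⌋₊ : ℝ) := by norm_num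
  rw [this]
  exact Nat.floor_le hT

/-- The integral of the squared norm of a convolution with the kernel. -/
theorem FR_conv {T c K L : ℝ} {P : ℝ → ℂ} (hT : 2 ≤ T) (hc : c ≠ 0) (hP : Continuous P)
    (hK : 2 * T ^ c * Real.exp (c ^ 2) / |c| ≤ K)
    (hL : ∫ u in (T / 2)..(T / 2 + 2 * T), ‖P u‖ ^ 2 ≤ L) :
    ∫ t in T..(2 * T), ‖∫ v in (-(T / 2))..(T / 2), P (t + v) * ker T c v‖ ^ 2 ≤ K ^ 2 * L := by
  have h1 := young (P := P) (κ := ker T c) hP (FR_ker_cont (by linarith) hc)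
    (show T ≤ 2 * T by linarith) (show 0 ≤ T / 2 by linarith)
  have e1 : T - T / 2 = T / 2 := by ring
  have e2 : 2 * T + T / 2 = T / 2 + 2 * T := by ring
  rw [e1, e2] at h1
  refine h1.trans ?_
  have h2 : 0 ≤ ∫ v in (-(T / 2))..(T / 2), ‖ker T c v‖ :=
    intervalIntegral.integral_nonneg (by linarith) fun v _ => norm_nonneg _
  have h3 : (∫ v in (-(T / 2))..(T / 2), ‖ker T c v‖) ≤ K :=
    (ker_int hc (by linarith) (by linarith)).trans hK
  have h4 : 0 ≤ ∫ u in (T / 2)..(T / 2 + 2 * T), ‖P u‖ ^ 2 :=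
    intervalIntegral.integral_nonneg (by linarith) fun v _ => by positivity
  exact mul_le_mul (pow_le_pow_left₀ h2 h3 2) hL h4 (by positivity)

/-! ### Module FR -/

theorem fr (η ε : ℝ) (hη : 0 < η) (_hη1 : η ≤ 1 / 4) (hε : 0 < ε) : ∃ C : ℝ, 0 < C ∧
    ∀ T σ : ℝ, 2 ≤ T → 1 / 2 + η ≤ σ → σ ≤ 3 / 2 →
      ∫ t in T..(2 * T), ‖∫ v in (-(T / 2))..(T / 2),
        riemannZeta ((2 : ℂ) + (t + v : ℝ) * I) ^ 2 * ker T (2 - σ) v‖ ^ 2 ≤ C * T ^ (1 + ε) := by
  set δ : ℝ := min (ε / 16) (1 / 8) with hδdef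
  have hδ : 0 < δ := by positivity
  have hδ1 : δ ≤ 1 / 8 := min_le_right _ _
  have hδε : δ ≤ ε / 16 := min_le_left _ _
  obtain ⟨Ch, hCh, hhead⟩ := FR_head δ hδ hδ1
  obtain ⟨Ct, hCt, htail⟩ := FR_tail δ 4 hδ hδ1 (by norm_num) (by norm_num)
  set M : ℝ := 32 * Real.exp (9 / 4) with hM
  have hM0 : 0 < M := by positivity
  set K₁ : ℝ := 4 * Real.exp (9 / 4) with hK₁
  set K₂ : ℝ := 2 * Real.exp 1 / δ with hK₂
  refine ⟨3 * (K₁ ^ 2 * Ct + K₂ ^ 2 * Ch + (3 * M) ^ 2), by positivity, ?_⟩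
  intro T σ hT hσ hσ1
  have hT0 : 0 < T := by linarith
  have hT1 : 1 ≤ T := by linarith
  set b : ℝ := 2 - σ with hb
  have hb1 : 1 / 2 ≤ b := by linarith
  have hb2 : b ≤ 3 / 2 := by linarith
  have hb0 : b ≠ 0 := by linarith
  set V : ℝ := T / 2 with hV
  have hV1 : 1 ≤ V := by linarith
  -- the three parts
  set P₁ : ℝ → ℂ := fun u => ∑ n ∈ Finset.Icc 1 ⌊T⌋₊,
    ((d n * (n : ℝ) ^ (-(2 : ℝ)) : ℝ) : ℂ) * (n : ℂ) ^ (-((u : ℂ) * I)) with hP₁
  set P₂ : ℝ → ℂ := fun u => ∑' n : ℕ, FRa T 2 n * (n : ℂ) ^ (-((u : ℂ) * I)) with hP₂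
  set Q : ℝ → ℂ := fun u => ∑ n ∈ Finset.Icc 1 ⌊T⌋₊,
    ((d n * (n : ℝ) ^ (-(σ + δ)) : ℝ) : ℂ) * (n : ℂ) ^ (-((u : ℂ) * I)) with hQ
  have hP₁c : Continuous P₁ := FR_head_cont T 2
  have hP₂c : Continuous P₂ := FR_tail_cont hT0.le (by norm_num)
  have hQc : Continuous Q := FR_head_cont T (σ + δ)
  have hzeta : ∀ u : ℝ, riemannZeta ((2 : ℂ) + (u : ℂ) * I) ^ 2 = P₁ u + P₂ u := by
    intro u
    have := FR_zeta_sq (T := T) (τ := 2) (by norm_num) u
    push_cast at this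
    rw [this, hP₁, hP₂]
    push_cast
    rfl
  have hkb := FR_ker_cont (T := T) hT0 hb0
  have hkd := FR_ker_cont (T := T) hT0 hδ.ne'
  -- pointwise bound
  have hpt : ∀ t ∈ Set.Icc T (2 * T), ‖∫ v in (-V)..V,
      riemannZeta ((2 : ℂ) + (t + v : ℝ) * I) ^ 2 * ker T b v‖ ≤
      ‖∫ v in (-V)..V, P₂ (t + v) * ker T b v‖ + ‖∫ v in (-V)..V, Q (t + v) * ker T δ v‖ +
        3 * M := by
    intro t ht
    have e1 : (∫ v in (-V)..V, riemannZeta ((2 : ℂ) + (t + v : ℝ) * I) ^ 2 * ker T b v) =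
        (∫ v in (-V)..V, P₁ (t + v) * ker T b v) + ∫ v in (-V)..V, P₂ (t + v) * ker T b v := by
      rw [← intervalIntegral.integral_add]
      · apply intervalIntegral.integral_congr
        intro v _
        simp only
        rw [hzeta, add_mul]
      · exact ((hP₁c.comp (continuous_const.add continuous_id)).mul hkb).intervalIntegrable _ _
      · exact ((hP₂c.comp (continuous_const.add continuous_id)).mul hkb).intervalIntegrable _ _
    have hbd : ∀ x v : ℝ, δ ≤ x → x ≤ b → |v| = V → ‖FRf T σ t ((x : ℂ) + v * I)‖ ≤ M := by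
      intro x v hx hxb hv
      rw [FR_f_val, norm_mul]
      have f1 := FR_head_norm (T := T) (τ := σ + x) hT0.le (by linarith) (t + v)
      have f2 := FR_norm_ker_le (T := T) (x := x) (v := v) hT0 (by rw [hv]; exact hV1)
      have f3 : T ^ x ≤ T ^ 2 := by
        rw [← Real.rpow_natCast]
        exact Real.rpow_le_rpow_of_exponent_le hT1 (by push_cast; linarith)
      have hv2 : v ^ 2 = T ^ 2 / 4 := by rw [← sq_abs, hv, hV]; ring
      have f4 : Real.exp (x ^ 2 - v ^ 2) ≤ Real.exp (9 / 4) * Real.exp (-(T ^ 2 / 4)) := by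
        rw [← Real.exp_add, hv2]
        apply Real.exp_le_exp.mpr
        nlinarith
      have f5 := FR_exp_le 2 (y := T ^ 2 / 4) (by positivity)
      have f6 : ((2 : ℕ).factorial : ℝ) = 2 := by norm_num [Nat.factorial]
      rw [f6] at f5
      have hE : 0 ≤ Real.exp (-(T ^ 2 / 4)) := (Real.exp_pos _).le
      calc _ ≤ T ^ 2 * (T ^ 2 * (Real.exp (9 / 4) * Real.exp (-(T ^ 2 / 4)))) := by
            apply mul_le_mul f1 (f2.trans _) (norm_nonneg _) (by positivity)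
            exact mul_le_mul f3 f4 (Real.exp_pos _).le (by positivity)
        _ = 16 * Real.exp (9 / 4) * ((T ^ 2 / 4) ^ 2 * Real.exp (-(T ^ 2 / 4))) := by ring
        _ ≤ 16 * Real.exp (9 / 4) * 2 := mul_le_mul_of_nonneg_left f5 (by positivity)
        _ = M := by rw [hM]; ring
    have hshift := ct_shift (f := FRf T σ t) (a := δ) (b := b) (V := V) (M := M) (by linarith)
      (by linarith) (fun z hz _ _ => FR_f_diff hT0 (by
        intro h0
        rw [h0] at hz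
        simp at hz
        linarith))
      (by
        intro x hx hxb
        refine ⟨hbd x V hx hxb (abs_of_pos (by linarith)), ?_⟩
        have := hbd x (-V) hx hxb (by rw [abs_neg]; exact abs_of_pos (by linarith))
        have e : (x : ℂ) + ((-V : ℝ) : ℂ) * I = (x : ℂ) - V * I := by push_cast; ring
        rwa [e] at this)
    have e2 : (∫ v in (-V)..V, FRf T σ t ((b : ℂ) + v * I)) =
        ∫ v in (-V)..V, P₁ (t + v) * ker T b v := by
      apply intervalIntegral.integral_congr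
      intro v _
      simp only
      rw [FR_f_val, hP₁]
      have : σ + b = 2 := by rw [hb]; ring
      rw [this]
    have e3 : (∫ v in (-V)..V, FRf T σ t ((δ : ℂ) + v * I)) =
        ∫ v in (-V)..V, Q (t + v) * ker T δ v := by
      apply intervalIntegral.integral_congr
      intro v _
      simp only
      rw [FR_f_val, hQ]
    rw [e2, e3] at hshift
    have e4 : 2 * (b - δ) * M ≤ 3 * M := by
      apply mul_le_mul_of_nonneg_right _ hM0.le
      linarith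
    have e5 := norm_sub_norm_le (∫ v in (-V)..V, P₁ (t + v) * ker T b v)
      (∫ v in (-V)..V, Q (t + v) * ker T δ v)
    rw [e1]
    have e6 := norm_add_le (∫ v in (-V)..V, P₁ (t + v) * ker T b v)
      (∫ v in (-V)..V, P₂ (t + v) * ker T b v)
    linarith
  have hFc : Continuous fun t : ℝ => ∫ v in (-V)..V,
      riemannZeta ((2 : ℂ) + (t + v : ℝ) * I) ^ 2 * ker T b v := by
    have : (fun t : ℝ => ∫ v in (-V)..V,
        riemannZeta ((2 : ℂ) + (t + v : ℝ) * I) ^ 2 * ker T b v) =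
        fun t : ℝ => ∫ v in (-V)..V, (fun u => P₁ u + P₂ u) (t + v) * ker T b v := by
      funext t
      apply intervalIntegral.integral_congr
      intro v _
      simp only
      rw [hzeta]
    rw [this]
    exact FR_par_cont (hP₁c.add hP₂c) hkb V
  have hmain := FR_split (A := T) (B := 2 * T) (by linarith) hFc.continuousOn
    (FR_par_cont hP₂c hkb V) (FR_par_cont hQc hkd V) (by positivity) hpt
  -- mean values
  have hG := FR_conv (T := T) (c := b) (K := K₁ * T ^ b) (L := Ct * T ^ (2 - 4 + 4 * δ)) (P := P₂)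
    hT hb0 hP₂c (by
      rw [abs_of_pos (by linarith), div_le_iff₀ (by linarith)]
      have g1 : Real.exp (b ^ 2) ≤ Real.exp (9 / 4) := Real.exp_le_exp.mpr (by nlinarith)
      have g2 : 0 < T ^ b := by positivity
      calc 2 * T ^ b * Real.exp (b ^ 2) ≤ 2 * T ^ b * Real.exp (9 / 4) :=
            mul_le_mul_of_nonneg_left g1 (by positivity)
        _ = K₁ * T ^ b * (1 / 2) := by rw [hK₁]; ring
        _ ≤ K₁ * T ^ b * b := mul_le_mul_of_nonneg_left hb1 (by positivity))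
    (by
      have := htail T (T / 2) hT
      have e : (4 : ℝ) / 2 = 2 := by norm_num
      rw [e] at this
      exact this)
  have hH := FR_conv (T := T) (c := δ) (K := K₂ * T ^ δ) (L := Ch * T ^ (1 + 4 * δ)) (P := Q)
    hT hδ.ne' hQc (by
      rw [abs_of_pos hδ, hK₂, div_le_iff₀ hδ]
      have g1 : Real.exp (δ ^ 2) ≤ Real.exp 1 := Real.exp_le_exp.mpr (by nlinarith)
      calc 2 * T ^ δ * Real.exp (δ ^ 2) ≤ 2 * T ^ δ * Real.exp 1 :=
            mul_le_mul_of_nonneg_left g1 (by positivity)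
        _ = 2 * Real.exp 1 / δ * T ^ δ * δ := by field_simp)
    (hhead T (σ + δ) (T / 2) hT (by linarith))
  have hG2 : (K₁ * T ^ b) ^ 2 * (Ct * T ^ (2 - 4 + 4 * δ)) ≤ K₁ ^ 2 * Ct * T ^ (1 + ε) := by
    have g : (T ^ b) ^ 2 * T ^ (2 - 4 + 4 * δ) ≤ T ^ (1 + ε) := by
      rw [← Real.rpow_natCast (T ^ b) 2, ← Real.rpow_mul hT0.le, ← Real.rpow_add hT0]
      apply Real.rpow_le_rpow_of_exponent_le hT1
      push_cast
      linarith
    calc _ = K₁ ^ 2 * Ct * ((T ^ b) ^ 2 * T ^ (2 - 4 + 4 * δ)) := by ring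
      _ ≤ _ := mul_le_mul_of_nonneg_left g (by positivity)
  have hH2 : (K₂ * T ^ δ) ^ 2 * (Ch * T ^ (1 + 4 * δ)) ≤ K₂ ^ 2 * Ch * T ^ (1 + ε) := by
    have g : (T ^ δ) ^ 2 * T ^ (1 + 4 * δ) ≤ T ^ (1 + ε) := by
      rw [← Real.rpow_natCast (T ^ δ) 2, ← Real.rpow_mul hT0.le, ← Real.rpow_add hT0]
      apply Real.rpow_le_rpow_of_exponent_le hT1
      push_cast
      linarith
    calc _ = K₂ ^ 2 * Ch * ((T ^ δ) ^ 2 * T ^ (1 + 4 * δ)) := by ring
      _ ≤ _ := mul_le_mul_of_nonneg_left g (by positivity)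
  have hM2 : (3 * M) ^ 2 * (2 * T - T) ≤ (3 * M) ^ 2 * T ^ (1 + ε) := by
    apply mul_le_mul_of_nonneg_left _ (by positivity)
    calc 2 * T - T = T ^ (1 : ℝ) := by rw [Real.rpow_one]; ring
      _ ≤ T ^ (1 + ε) := Real.rpow_le_rpow_of_exponent_le hT1 (by linarith)
  calc _ ≤ _ := hmain
    _ ≤ 3 * (K₁ ^ 2 * Ct * T ^ (1 + ε) + K₂ ^ 2 * Ch * T ^ (1 + ε) +
        (3 * M) ^ 2 * T ^ (1 + ε)) := by
      apply mul_le_mul_of_nonneg_left _ (by norm_num)
      exact add_le_add (add_le_add (hG.trans hG2) (hH.trans hH2)) hM2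
    _ = _ := by ring

end Pool.Agent.helper84.DM
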